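import Pool.Agent.L7h17.OC.Stm

/-!
# Project OC, part FORM: the normal form of an octic with a rotational symmetry
-/

set_option autoImplicit false

open MvPolynomial

namespace Pool.Agent.L7h96.OC

open Pool.Agent.L7h17.OC

theorem prod0 {A B : ℂ → ℂ} (hA : DifferentiableAt ℂ A 0) (hB : DifferentiableAt ℂ B 0)
    (h0 : A 0 = 0) (h1 : B 0 = 0) : HasDerivAt (fun s => A s * B s) 0 0 := by
  have h := hA.hasDerivAt.mul hB.hasDerivAt
  rw [h0, h1, mul_zero, zero_mul, add_zero] at h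
  exact h

theorem term0 {f g h : ℂ → ℂ} (hf : DifferentiableAt ℂ f 0) (hg : DifferentiableAt ℂ g 0)
    (hh : DifferentiableAt ℂ h 0) (f0 : f 0 = 0) (g0 : g 0 = 0) (a b : ℕ) (hab : 2 ≤ a + b) :
    HasDerivAt (fun s => h s * (f s ^ a * g s ^ b)) 0 0 := by
  rcases a with _ | a
  · obtain ⟨b, rfl⟩ : ∃ b', b = b' + 2 := ⟨b - 2, by omega⟩
    have := prod0 (A := fun s => h s * g s ^ (b + 1)) (B := g) (by fun_prop) hg (by simp [g0]) g0
    convert this using 2 with s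
    ring
  · have h1 : (0 : ℂ) ^ a * 0 ^ b = 0 := by
      rw [← pow_add]
      exact zero_pow (by omega)
    have := prod0 (A := fun s => h s * (f s ^ a * g s ^ b)) (B := f) (by fun_prop) hf
      (by simp only [f0, g0, h1, mul_zero]) f0
    convert this using 2 with s
    ring

/-- the form in the coordinates `Z, W, U` -/
noncomputable def G (c : ℕ → ℕ → ℂ) (Z W U : ℂ) : ℂ :=
  ∑ a ∈ Finset.range 9, ∑ b ∈ Finset.range (9 - a), c a b * Z ^ a * W ^ b * U ^ (8 - a - b)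

theorem aeval_eq {F : MvPolynomial (Fin 3) ℝ} {c : ℕ → ℕ → ℂ}
    (hc : ∀ Z W U : ℂ, aeval ![(Z + W) / 2, (Z - W) / (2 * Complex.I), U] F = G c Z W U)
    (x : Fin 3 → ℂ) :
    aeval x F = G c (x 0 + Complex.I * x 1) (x 0 - Complex.I * x 1) (x 2) := by
  rw [← hc]
  congr 1
  have hI : Complex.I ≠ 0 := Complex.I_ne_zero
  congr 1
  funext i
  fin_cases i
  · simp
  · simp only [Fin.mk_one, Fin.isValue, Matrix.cons_val_one, Matrix.cons_val_zero]
    field_simp
    ring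
  · simp

/-- the centre -/
theorem centre {c : ℕ → ℕ → ℂ} (h00 : c 0 0 = 0) (h10 : c 1 0 = 0) (h01 : c 0 1 = 0)
    (z w u : ℂ) : HasDerivAt (fun s : ℂ => G c (s * z) (s * w) (1 + s * u)) 0 0 := by
  unfold G
  have key : ∀ a ∈ Finset.range 9, ∀ b ∈ Finset.range (9 - a),
      HasDerivAt (fun s : ℂ => c a b * (s * z) ^ a * (s * w) ^ b * (1 + s * u) ^ (8 - a - b))
        0 0 := by
    intro a ha b hb
    by_cases hab : 2 ≤ a + b
    · have := term0 (f := fun s => s * z) (g := fun s => s * w)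
        (h := fun s => c a b * (1 + s * u) ^ (8 - a - b)) (by fun_prop) (by fun_prop) (by fun_prop)
        (by simp) (by simp) a b hab
      convert this using 2 with s
      ring
    · have h0 : c a b = 0 := by
        have : (a = 0 ∧ b = 0) ∨ (a = 1 ∧ b = 0) ∨ (a = 0 ∧ b = 1) := by omega
        rcases this with ⟨rfl, rfl⟩ | ⟨rfl, rfl⟩ | ⟨rfl, rfl⟩ <;> assumption
      simp only [h0, zero_mul]
      exact hasDerivAt_const _ _
  have h1 : ∀ a ∈ Finset.range 9, HasDerivAt (fun s : ℂ => ∑ b ∈ Finset.range (9 - a),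
      c a b * (s * z) ^ a * (s * w) ^ b * (1 + s * u) ^ (8 - a - b)) 0 0 := by
    intro a ha
    have := HasDerivAt.fun_sum (key a ha)
    simpa using this
  have := HasDerivAt.fun_sum h1
  simpa using this

/-- the circular point -/
theorem circ {c : ℕ → ℕ → ℂ} (h80 : c 8 0 = 0) (h71 : c 7 1 = 0) (h70 : c 7 0 = 0)
    (z w u : ℂ) : HasDerivAt (fun s : ℂ => G c (1 + s * z) (s * w) (s * u)) 0 0 := by
  unfold G
  have key : ∀ a ∈ Finset.range 9, ∀ b ∈ Finset.range (9 - a),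
      HasDerivAt (fun s : ℂ => c a b * (1 + s * z) ^ a * (s * w) ^ b * (s * u) ^ (8 - a - b))
        0 0 := by
    intro a ha b hb
    have ha' := Finset.mem_range.1 ha
    have hb' := Finset.mem_range.1 hb
    by_cases hab : 2 ≤ b + (8 - a - b)
    · have := term0 (f := fun s => s * w) (g := fun s => s * u)
        (h := fun s => c a b * (1 + s * z) ^ a) (by fun_prop) (by fun_prop) (by fun_prop)
        (by simp) (by simp) b (8 - a - b) hab
      convert this using 2 with s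
      ring
    · have h0 : c a b = 0 := by
        have : (a = 8 ∧ b = 0) ∨ (a = 7 ∧ b = 1) ∨ (a = 7 ∧ b = 0) := by omega
        rcases this with ⟨rfl, rfl⟩ | ⟨rfl, rfl⟩ | ⟨rfl, rfl⟩ <;> assumption
      simp only [h0, zero_mul]
      exact hasDerivAt_const _ _
  have h1 : ∀ a ∈ Finset.range 9, HasDerivAt (fun s : ℂ => ∑ b ∈ Finset.range (9 - a),
      c a b * (1 + s * z) ^ a * (s * w) ^ b * (s * u) ^ (8 - a - b)) 0 0 := by
    intro a ha
    have := HasDerivAt.fun_sum (key a ha)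
    simpa using this
  have := HasDerivAt.fun_sum h1
  simpa using this

/-- the terms that are left -/
theorem G_mod {c : ℕ → ℕ → ℂ} {m : ℕ} (h : ∀ a b, a + b ≤ 8 → c a b ≠ 0 → a % m = b % m)
    (Z W U : ℂ) : G c Z W U = ∑ a ∈ Finset.range 9, ∑ b ∈ Finset.range (9 - a),
      (if a % m = b % m then c a b * Z ^ a * W ^ b * U ^ (8 - a - b) else 0) := by
  unfold G
  refine Finset.sum_congr rfl fun a ha => Finset.sum_congr rfl fun b hb => ?_
  have ha' := Finset.mem_range.1 ha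
  have hb' := Finset.mem_range.1 hb
  split_ifs with h1
  · rfl
  · have : c a b = 0 := by
      by_contra h2
      exact h1 (h a b (by omega) h2)
    rw [this]
    simp

theorem G8 {c : ℕ → ℕ → ℂ} (h : ∀ a b, a + b ≤ 8 → c a b ≠ 0 → a % 8 = b % 8)
    (Z W U : ℂ) : G c Z W U = c 0 0 * U ^ 8 + c 1 1 * (Z * W) * U ^ 6 +
      c 2 2 * (Z * W) ^ 2 * U ^ 4 + c 3 3 * (Z * W) ^ 3 * U ^ 2 + c 4 4 * (Z * W) ^ 4 +
      (c 8 0 * Z ^ 8 + c 0 8 * W ^ 8) := by
  rw [G_mod h]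
  simp [Finset.sum_range_succ]
  ring

theorem G7 {c : ℕ → ℕ → ℂ} (h : ∀ a b, a + b ≤ 8 → c a b ≠ 0 → a % 7 = b % 7)
    (Z W U : ℂ) : G c Z W U = c 0 0 * U ^ 8 + c 1 1 * (Z * W) * U ^ 6 +
      c 2 2 * (Z * W) ^ 2 * U ^ 4 + c 3 3 * (Z * W) ^ 3 * U ^ 2 + c 4 4 * (Z * W) ^ 4 +
      (c 7 0 * Z ^ 7 * U + c 0 7 * W ^ 7 * U) := by
  rw [G_mod h]
  simp [Finset.sum_range_succ]
  ring

theorem G6 {c : ℕ → ℕ → ℂ} (h : ∀ a b, a + b ≤ 8 → c a b ≠ 0 → a % 6 = b % 6)
    (Z W U : ℂ) : G c Z W U = c 0 0 * U ^ 8 + c 1 1 * (Z * W) * U ^ 6 +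
      c 2 2 * (Z * W) ^ 2 * U ^ 4 + c 3 3 * (Z * W) ^ 3 * U ^ 2 + c 4 4 * (Z * W) ^ 4 +
      (c 7 1 * (Z ^ 7 * W) + c 1 7 * (Z * W ^ 7) + (c 6 0 * Z ^ 6 + c 0 6 * W ^ 6) * U ^ 2) := by
  rw [G_mod h]
  simp [Finset.sum_range_succ]
  ring

theorem prim {θ : ℝ} {m : ℕ} (h : AngleOrder θ m) :
    IsPrimitiveRoot (Complex.exp (θ * Complex.I)) m := by
  have e : ∀ k : ℕ, Complex.exp (θ * Complex.I) ^ k = Complex.exp (k * θ * Complex.I) := by
    intro k
    rw [← Complex.exp_nat_mul]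
    congr 1
    ring
  exact IsPrimitiveRoot.mk_of_lt _ h.1 ((e m).trans h.2.1) fun l h1 h2 => by
    rw [e]
    exact h.2.2 l h1 h2

theorem mod_eq {ω : ℂ} {m : ℕ} (hω : IsPrimitiveRoot ω m) (hm : 0 < m) (a b : ℕ)
    (h : ω ^ a = ω ^ b) : a % m = b % m := by
  have key : ∀ a b : ℕ, a ≤ b → ω ^ a = ω ^ b → a % m = b % m := by
    intro a b hab h
    have h0 : ω ≠ 0 := hω.ne_zero hm.ne'
    have h1 : ω ^ (b - a) = 1 := by
      have h2 : ω ^ a * ω ^ (b - a) = ω ^ a * 1 := by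
        rw [← pow_add, Nat.add_sub_cancel' hab, mul_one, h]
      exact mul_left_cancel₀ (pow_ne_zero _ h0) h2
    have h3 := (hω.pow_eq_one_iff_dvd _).1 h1
    exact (Nat.modEq_iff_dvd' hab).2 h3
  rcases le_total a b with hab | hab
  · exact key a b hab h
  · exact (key b a hab h.symm).symm

theorem exp_diff (θ : ℝ) (a b : ℕ) :
    Complex.exp (((a : ℂ) - (b : ℂ)) * θ * Complex.I) * Complex.exp (θ * Complex.I) ^ b =
      Complex.exp (θ * Complex.I) ^ a := by
  rw [← Complex.exp_nat_mul, ← Complex.exp_nat_mul, ← Complex.exp_add]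
  congr 1
  ring

theorem real_eq {F : MvPolynomial (Fin 3) ℝ} {c : ℕ → ℕ → ℂ}
    (hc : ∀ Z W U : ℂ, aeval ![(Z + W) / 2, (Z - W) / (2 * Complex.I), U] F = G c Z W U)
    (v : Fin 3 → ℝ) : ((eval v F : ℝ) : ℂ) =
      G c (v 0 + Complex.I * v 1) (v 0 - Complex.I * v 1) (v 2) := by
  have h := aeval_eq hc (fun i => (v i : ℂ))
  rw [← h]
  have h2 := MvPolynomial.aeval_algebraMap_apply (B := ℂ) v F
  rw [MvPolynomial.aeval_eq_eval] at h2
  exact h2.symm

theorem G_centre (c : ℕ → ℕ → ℂ) : G c 0 0 1 = c 0 0 := by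
  simp [G, Finset.sum_range_succ]

theorem G_circ (c : ℕ → ℕ → ℂ) : G c 1 0 0 = c 8 0 := by
  simp [G, Finset.sum_range_succ]

/-- the polynomial `p` -/
noncomputable def pol (c : ℕ → ℕ → ℂ) : Polynomial ℝ :=
  Polynomial.C (c 0 0).re * Polynomial.X ^ 4 + Polynomial.C (c 1 1).re * Polynomial.X ^ 3 +
    Polynomial.C (c 2 2).re * Polynomial.X ^ 2 + Polynomial.C (c 3 3).re * Polynomial.X +
    Polynomial.C (c 4 4).re

theorem pol_deg (c : ℕ → ℕ → ℂ) : (pol c).natDegree ≤ 4 := by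
  unfold pol
  compute_degree

theorem pol_coeff (c : ℕ → ℕ → ℂ) : (pol c).coeff 4 = (c 0 0).re := by
  unfold pol
  simp [Polynomial.coeff_X_pow]

theorem pol_eval (c : ℕ → ℕ → ℂ) (t : ℝ) : (pol c).eval t = (c 0 0).re * t ^ 4 +
    (c 1 1).re * t ^ 3 + (c 2 2).re * t ^ 2 + (c 3 3).re * t + (c 4 4).re := by
  unfold pol
  simp

theorem re_two (x : ℂ) : (((2 * x).re : ℝ) : ℂ) = x + (starRingEnd ℂ) x := by
  rw [Complex.add_conj]
  congr 1
  simp

theorem diag {c : ℕ → ℕ → ℂ}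
    (hconj : ∀ a b : ℕ, a + b ≤ 8 → c b a = (starRingEnd ℂ) (c a b)) (k : ℕ) (hk : 2 * k ≤ 8) :
    c k k = ((c k k).re : ℂ) :=
  (Complex.conj_eq_iff_re.1 (hconj k k (by omega)).symm).symm

theorem polar_pt {F : MvPolynomial (Fin 3) ℝ} {c : ℕ → ℕ → ℂ}
    (hc : ∀ Z W U : ℂ, aeval ![(Z + W) / 2, (Z - W) / (2 * Complex.I), U] F = G c Z W U)
    (x τ : ℝ) : ((eval ![Real.cos x, Real.sin x, τ] F : ℝ) : ℂ) =
      G c (Complex.exp (x * Complex.I)) ((starRingEnd ℂ) (Complex.exp (x * Complex.I))) τ := by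
  have e : Complex.exp (x * Complex.I) = Real.cos x + Complex.I * Real.sin x := by
    rw [Complex.exp_mul_I, ← Complex.ofReal_cos, ← Complex.ofReal_sin]
    ring
  have e' : (starRingEnd ℂ) (Complex.exp (x * Complex.I)) = Real.cos x - Complex.I * Real.sin x := by
    rw [e, map_add, map_mul, Complex.conj_ofReal, Complex.conj_ofReal, Complex.conj_I]
    ring
  rw [real_eq hc, e', e]
  rfl

theorem unit_pt (x : ℝ) :
    Complex.exp (x * Complex.I) * (starRingEnd ℂ) (Complex.exp (x * Complex.I)) = 1 := by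
  rw [Complex.mul_conj, Complex.normSq_eq_norm_sq, Complex.norm_exp_ofReal_mul_I]
  simp

theorem exp_pow (x : ℝ) (k : ℕ) :
    Complex.exp (k * x * Complex.I) = Complex.exp (x * Complex.I) ^ k := by
  rw [← Complex.exp_nat_mul]
  congr 1
  ring

theorem sq_one {ω : ℂ} {χ : ℝ} (hω : ‖ω‖ = 1) (h : (χ : ℂ) = ω ∨ (χ : ℂ) * ω = 1) :
    ω ^ 2 = 1 := by
  have h1 : |χ| = 1 := by
    rcases h with h | h
    · have := congrArg norm h
      rwa [hω, Complex.norm_real, Real.norm_eq_abs] at this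
    · have := congrArg norm h
      rwa [norm_mul, hω, mul_one, Complex.norm_real, Real.norm_eq_abs, norm_one] at this
  have h2 : (χ : ℂ) ^ 2 = 1 := by
    have : χ ^ 2 = 1 := by rw [← sq_abs, h1, one_pow]
    exact_mod_cast this
  rcases h with h | h
  · rw [← h, h2]
  · have : ((χ : ℂ) * ω) ^ 2 = 1 := by rw [h, one_pow]
    rwa [mul_pow, h2, one_mul] at this

/-- the double point -/
theorem double_pt {β β' s : ℂ} (hs : s ≠ 0) (hβ : β ≠ 0) (hβ' : β' ≠ 0)
    (K : ℂ) : ∃ Z W : ℂ, Z ≠ 0 ∧ Z * W = s ∧ K + (β * Z ^ 6 + β' * W ^ 6) = 0 := by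
  obtain ⟨e, he⟩ := IsAlgClosed.exists_pow_nat_eq (K ^ 2 - 4 * β * (β' * s ^ 6)) (n := 2)
    (by norm_num)
  set Y := (-K + e) / (2 * β) with hY
  have hYe : 2 * β * Y = -K + e := by
    rw [hY]
    field_simp
  have hq : β * Y ^ 2 + K * Y + β' * s ^ 6 = 0 := by
    have h4 : 4 * β * (β * Y ^ 2 + K * Y + β' * s ^ 6) = 0 := by
      have : 4 * β * (β * Y ^ 2 + K * Y + β' * s ^ 6) =
          (2 * β * Y) ^ 2 + 2 * K * (2 * β * Y) + 4 * β * (β' * s ^ 6) := by ring
      rw [this, hYe]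
      linear_combination he
    rcases mul_eq_zero.1 h4 with h | h
    · exact absurd h (by simp [hβ])
    · exact h
  have hY0 : Y ≠ 0 := by
    intro h
    rw [h] at hq
    have : β' * s ^ 6 = 0 := by linear_combination hq
    exact mul_ne_zero hβ' (pow_ne_zero _ hs) this
  obtain ⟨Z, hZ⟩ := IsAlgClosed.exists_pow_nat_eq Y (n := 6) (by norm_num)
  have hZ0 : Z ≠ 0 := by
    rintro rfl
    exact hY0 (by rw [← hZ]; norm_num)
  refine ⟨Z, s / Z, hZ0, by field_simp, ?_⟩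
  have h5 : Z ^ 6 * (K + (β * Z ^ 6 + β' * (s / Z) ^ 6)) = 0 := by
    have : Z ^ 6 * (K + (β * Z ^ 6 + β' * (s / Z) ^ 6)) =
        β * (Z ^ 6) ^ 2 + K * Z ^ 6 + β' * s ^ 6 := by
      field_simp
      ring
    rw [this, hZ, hq]
  rcases mul_eq_zero.1 h5 with h | h
  · exact absurd h (pow_ne_zero _ hZ0)
  · exact h

/-- the form for `m = 6` with a common zero is singular -/
theorem sing6 {c : ℕ → ℕ → ℂ} (h : ∀ a b, a + b ≤ 8 → c a b ≠ 0 → a % 6 = b % 6) {s : ℂ}
    (hs : s ≠ 0) (h71 : c 7 1 ≠ 0) (h17 : c 1 7 ≠ 0) (h60 : c 6 0 = -s * c 7 1)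
    (h06 : c 0 6 = -s * c 1 7)
    (hP : c 0 0 + c 1 1 * s + c 2 2 * s ^ 2 + c 3 3 * s ^ 3 + c 4 4 * s ^ 4 = 0) :
    ∃ Z W : ℂ, G c Z W 1 = 0 ∧ ∀ z w u : ℂ,
      HasDerivAt (fun x : ℂ => G c (Z + x * z) (W + x * w) (1 + x * u)) 0 0 := by
  obtain ⟨q3, hq3⟩ : ∃ q3, q3 = c 4 4 := ⟨_, rfl⟩
  obtain ⟨q2, hq2⟩ : ∃ q2, q2 = c 3 3 + s * q3 := ⟨_, rfl⟩
  obtain ⟨q1, hq1⟩ : ∃ q1, q1 = c 2 2 + s * q2 := ⟨_, rfl⟩
  obtain ⟨q0, hq0⟩ : ∃ q0, q0 = c 1 1 + s * q1 := ⟨_, rfl⟩
  have h0 : c 0 0 = -s * q0 := by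
    rw [hq0, hq1, hq2, hq3]
    linear_combination hP
  have hG : ∀ Z W U : ℂ, G c Z W U = (Z * W - s * U ^ 2) * (q3 * (Z * W) ^ 3 +
      q2 * (Z * W) ^ 2 * U ^ 2 + q1 * (Z * W) * U ^ 4 + q0 * U ^ 6 +
      (c 7 1 * Z ^ 6 + c 1 7 * W ^ 6)) := by
    intro Z W U
    rw [G6 h, h60, h06, h0]
    have e1 : c 1 1 = q0 - s * q1 := by rw [hq0]; ring
    have e2 : c 2 2 = q1 - s * q2 := by rw [hq1]; ring
    have e3 : c 3 3 = q2 - s * q3 := by rw [hq2]; ring
    have e4 : c 4 4 = q3 := hq3.symm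
    rw [e1, e2, e3, e4]
    ring
  obtain ⟨Z, W, hZ0, hZW, hK⟩ := double_pt hs h71 h17 (q3 * s ^ 3 + q2 * s ^ 2 + q1 * s + q0)
  refine ⟨Z, W, ?_, fun z w u => ?_⟩
  · rw [hG, hZW]
    simp
  · simp only [hG]
    refine prod0 (A := fun x : ℂ => (Z + x * z) * (W + x * w) - s * (1 + x * u) ^ 2)
      (B := fun x : ℂ => q3 * ((Z + x * z) * (W + x * w)) ^ 3 +
      q2 * ((Z + x * z) * (W + x * w)) ^ 2 * (1 + x * u) ^ 2 +
      q1 * ((Z + x * z) * (W + x * w)) * (1 + x * u) ^ 4 + q0 * (1 + x * u) ^ 6 +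
      (c 7 1 * (Z + x * z) ^ 6 + c 1 7 * (W + x * w) ^ 6)) (by fun_prop) (by fun_prop) ?_ ?_
    · simp only [zero_mul, add_zero, one_pow, mul_one]
      rw [hZW, sub_self]
    · simp only [zero_mul, add_zero, one_pow, mul_one]
      rw [hZW]
      linear_combination hK

theorem s_FORM (hE : S_EXP) (_hC : S_COEF) (hI : S_INV) (hD : S_DIR) : S_FORM := by
  intro F θ m hF hN hA hm ⟨χ, hχ⟩
  obtain ⟨c, hc, hconj⟩ := hE F hF
  have hc' : ∀ Z W U : ℂ, aeval ![(Z + W) / 2, (Z - W) / (2 * Complex.I), U] F = G c Z W U := hc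
  have hinv := hI F θ χ c hc hχ
  have hω := prim hA
  have hω1 : ‖Complex.exp (θ * Complex.I)‖ = 1 := Complex.norm_exp_ofReal_mul_I θ
  have hm0 : 0 < m := by omega
  -- the derivatives along the lines through a point
  have hdir : ∀ Z W U : ℂ, (Z ≠ 0 ∨ U ≠ 0) → G c Z W U = 0 →
      ¬ ∀ z w u : ℂ, HasDerivAt (fun s : ℂ => G c (Z + s * z) (W + s * w) (U + s * u)) 0 0 := by
    intro Z W U hne hG hcon
    have hI0 : Complex.I ≠ 0 := Complex.I_ne_zero
    have hv0 : (![(Z + W) / 2, (Z - W) / (2 * Complex.I), U] : Fin 3 → ℂ) ≠ 0 := by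
      intro h
      have h0 := congrFun h 0
      have h1 := congrFun h 1
      have h2 := congrFun h 2
      simp only [Fin.isValue, Matrix.cons_val_zero, Matrix.cons_val_one, Matrix.cons_val,
        Pi.zero_apply] at h0 h1 h2
      rcases hne with hne | hne
      · apply hne
        have h3 : Z + W = 0 := by
          linear_combination 2 * h0
        have h4 : Z - W = 0 := by
          have := (div_eq_zero_iff.1 h1).resolve_right (mul_ne_zero two_ne_zero hI0)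
          exact this
        linear_combination (1 / 2) * h3 + (1 / 2) * h4
      · exact hne h2
    obtain ⟨w, hw⟩ := hD F hN _ hv0 (by rw [hc' Z W U, hG])
    apply hw
    have := hcon (w 0 + Complex.I * w 1) (w 0 - Complex.I * w 1) (w 2)
    convert this using 2 with s
    rw [aeval_eq hc']
    have hI2 : Complex.I * ((Z - W) / (2 * Complex.I)) = (Z - W) / 2 := by
      field_simp
    congr 1
    · simp only [Fin.isValue, Pi.add_apply, Matrix.cons_val_zero, Pi.smul_apply, smul_eq_mul,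
        Matrix.cons_val_one]
      linear_combination hI2
    · simp only [Fin.isValue, Pi.add_apply, Matrix.cons_val_zero, Pi.smul_apply, smul_eq_mul,
        Matrix.cons_val_one]
      linear_combination - hI2
  -- centre
  have h00 : c 0 0 ≠ 0 := by
    intro h0
    have hne : c 1 0 ≠ 0 ∨ c 0 1 ≠ 0 := by
      by_contra hcon
      push Not at hcon
      refine hdir 0 0 1 (Or.inr one_ne_zero) (by rw [G_centre, h0]) fun z w u => ?_
      simp only [zero_add]
      exact centre h0 hcon.1 hcon.2 z w u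
    have h2 : Complex.exp (θ * Complex.I) ^ 2 = 1 := by
      apply sq_one hω1 (χ := χ)
      rcases hne with h | h
      · left
        have e := exp_diff θ 1 0
        rw [hinv 1 0 (by norm_num) h] at e
        simpa using e
      · right
        have e := exp_diff θ 0 1
        rw [hinv 0 1 (by norm_num) h] at e
        simpa using e
    have := Nat.le_of_dvd (by norm_num) ((hω.pow_eq_one_iff_dvd 2).1 h2)
    omega
  have hχ1 : (χ : ℂ) = 1 := by
    have e := exp_diff θ 0 0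
    rw [hinv 0 0 (by norm_num) h00] at e
    simpa using e
  have hmod : ∀ a b, a + b ≤ 8 → c a b ≠ 0 → a % m = b % m := by
    intro a b hab h
    have e := exp_diff θ a b
    rw [hinv a b hab h, hχ1, one_mul] at e
    exact mod_eq hω hm0 a b e.symm
  -- circular point
  have hcirc : c 8 0 ≠ 0 ∨ c 7 1 ≠ 0 ∨ c 7 0 ≠ 0 := by
    by_contra hcon
    push Not at hcon
    refine hdir 1 0 0 (Or.inl one_ne_zero) (by rw [G_circ, hcon.1]) fun z w u => ?_
    simp only [zero_add]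
    exact circ hcon.1 hcon.2.1 hcon.2.2 z w u
  have hre0 : (c 0 0).re ≠ 0 := by
    intro h
    apply h00
    rw [diag hconj 0 (by norm_num), h, Complex.ofReal_zero]
  have hcen : eval (![0, 0, 1] : Fin 3 → ℝ) F ≠ 0 := by
    intro h
    have h1 := real_eq hc' (![0, 0, 1] : Fin 3 → ℝ)
    rw [h] at h1
    apply h00
    rw [← G_centre c]
    simpa using h1.symm
  have hd0 := diag hconj 0 (by norm_num)
  have hd1 := diag hconj 1 (by norm_num)
  have hd2 := diag hconj 2 (by norm_num)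
  have hd3 := diag hconj 3 (by norm_num)
  have hd4 := diag hconj 4 (by norm_num)
  have hcoef : (pol c).coeff 4 ≠ 0 := by rwa [pol_coeff]
  have hpe : ∀ τ : ℝ, (((pol c).eval (τ ^ 2) : ℝ) : ℂ) = c 0 0 * τ ^ 8 + c 1 1 * τ ^ 6 +
      c 2 2 * τ ^ 4 + c 3 3 * τ ^ 2 + c 4 4 := by
    intro τ
    rw [pol_eval, hd0, hd1, hd2, hd3, hd4]
    simp only [Complex.ofReal_re]
    push_cast
    ring
  rcases hcirc with h | h | h
  · -- m = 8
    have hm8 : m = 8 := by
      have h1 := hmod 8 0 (by norm_num) h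
      have h2 : m ∣ 8 := Nat.dvd_of_mod_eq_zero (by simpa using h1)
      have h3 := Nat.le_of_dvd (by norm_num) h2
      interval_cases m <;> first | rfl | omega
    subst hm8
    refine ⟨pol c, 0, 2 * c 8 0, mul_ne_zero two_ne_zero h,
      Or.inl ⟨rfl, pol_deg c, hcoef, hcen, fun x τ => ?_⟩⟩
    apply Complex.ofReal_injective
    rw [polar_pt hc', G8 hmod, unit_pt, Complex.ofReal_add, hpe, exp_pow,
      show Complex.exp (x * Complex.I) ^ 8 * (2 * c 8 0) =
        2 * (c 8 0 * Complex.exp (x * Complex.I) ^ 8) by ring, re_two, map_mul, map_pow,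
      hconj 8 0 (by norm_num)]
    ring
  · -- m = 6
    have hm6 : m = 6 := by
      have h1 := hmod 7 1 (by norm_num) h
      have h2 : m ∣ 6 := (Nat.modEq_iff_dvd' (by norm_num : 1 ≤ 7)).1 h1.symm
      have h3 := Nat.le_of_dvd (by norm_num) h2
      interval_cases m <;> first | rfl | omega
    subst hm6
    refine ⟨pol c, 2 * c 6 0, 2 * c 7 1, mul_ne_zero two_ne_zero h,
      Or.inr (Or.inr ⟨rfl, ⟨pol_deg c, hcoef, hcen, fun x τ => ?_⟩, fun t ht hpt hbt => ?_⟩)⟩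
    · apply Complex.ofReal_injective
      rw [polar_pt hc', G6 hmod, unit_pt, Complex.ofReal_add, hpe, exp_pow,
        show Complex.exp (x * Complex.I) ^ 6 * (2 * c 7 1 + 2 * c 6 0 * (τ : ℂ) ^ 2) =
          2 * ((c 7 1 + c 6 0 * (τ : ℂ) ^ 2) * Complex.exp (x * Complex.I) ^ 6) by ring,
        re_two, map_mul, map_add, map_mul, map_pow, map_pow, Complex.conj_ofReal,
        hconj 7 1 (by norm_num), hconj 6 0 (by norm_num)]
      linear_combination (c 7 1 * Complex.exp (x * Complex.I) ^ 6 +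
        (starRingEnd ℂ) (c 7 1) * (starRingEnd ℂ) (Complex.exp (x * Complex.I)) ^ 6) * unit_pt x
    · have ht0 : (t : ℂ) ≠ 0 := by exact_mod_cast ht.ne'
      have h60 : c 6 0 = -(1 / (t : ℂ)) * c 7 1 := by
        field_simp
        linear_combination (1 / 2) * hbt
      have h17 : c 1 7 = (starRingEnd ℂ) (c 7 1) := hconj 7 1 (by norm_num)
      have h170 : c 1 7 ≠ 0 := by
        rw [h17]
        simpa using h
      have h06 : c 0 6 = -(1 / (t : ℂ)) * c 1 7 := by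
        rw [hconj 6 0 (by norm_num), h60, h17]
        simp
      have hP : c 0 0 + c 1 1 * (1 / (t : ℂ)) + c 2 2 * (1 / (t : ℂ)) ^ 2 +
          c 3 3 * (1 / (t : ℂ)) ^ 3 + c 4 4 * (1 / (t : ℂ)) ^ 4 = 0 := by
        have h1 : (((pol c).eval t : ℝ) : ℂ) = c 0 0 * t ^ 4 + c 1 1 * t ^ 3 +
            c 2 2 * t ^ 2 + c 3 3 * t + c 4 4 := by
          rw [pol_eval, hd0, hd1, hd2, hd3, hd4]
          simp only [Complex.ofReal_re]
          push_cast
          ring
        rw [hpt, Complex.ofReal_zero] at h1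
        field_simp
        linear_combination - h1
      obtain ⟨Z, W, hG, hder⟩ := sing6 hmod (one_div_ne_zero ht0) h h170 h60 h06 hP
      exact hdir Z W 1 (Or.inr one_ne_zero) hG hder
  · -- m = 7
    have hm7 : m = 7 := by
      have h1 := hmod 7 0 (by norm_num) h
      have h2 : m ∣ 7 := Nat.dvd_of_mod_eq_zero (by simpa using h1)
      have h3 := Nat.le_of_dvd (by norm_num) h2
      interval_cases m <;> first | rfl | omega
    subst hm7
    refine ⟨pol c, 0, 2 * c 7 0, mul_ne_zero two_ne_zero h,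
      Or.inr (Or.inl ⟨rfl, pol_deg c, hcoef, hcen, fun x τ => ?_⟩)⟩
    apply Complex.ofReal_injective
    rw [polar_pt hc', G7 hmod, unit_pt, Complex.ofReal_add, hpe, exp_pow,
      show Complex.exp (x * Complex.I) ^ 7 * (2 * c 7 0 * (τ : ℂ)) =
        2 * (c 7 0 * Complex.exp (x * Complex.I) ^ 7 * (τ : ℂ)) by ring, re_two, map_mul, map_mul,
      map_pow, Complex.conj_ofReal, hconj 7 0 (by norm_num)]
    ring

end Pool.Agent.L7h96.OC
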